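import Pool.Agent.N963.GN.Stm2
import Pool.Agent.N963.GN.W
import Pool.Agent.N768.GN.A

set_option autoImplicit false

/-!
# Task GN/Q: reduction of a Polya frequency weight to one factor (helper722)
-/

namespace Pool.Agent.N722.GN

open Complex Filter Topology MeasureTheory Polynomial
open scoped ComplexConjugate
open Pool.Agent.N963.GN

namespace Q

/-- One factor. -/
noncomputable def fa (a u : ℝ) : ℂ := (1 - I * a * u) * cexp (I * a * u)

lemma sq_norm_lin (a u : ℝ) : ‖(1 : ℂ) - I * a * u‖ ^ 2 = 1 + (a * u) ^ 2 := by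
  rw [← Complex.normSq_eq_norm_sq, Complex.normSq_apply]
  simp
  ring

lemma one_le_norm_lin (a u : ℝ) : 1 ≤ ‖(1 : ℂ) - I * a * u‖ := by
  have h1 := sq_norm_lin a u
  have h2 := norm_nonneg ((1 : ℂ) - I * a * u)
  nlinarith [sq_nonneg (a * u)]

lemma norm_lin_le (a u : ℝ) : ‖(1 : ℂ) - I * a * u‖ ≤ 1 + |a * u| := by
  have h1 := sq_norm_lin a u
  have h2 := norm_nonneg ((1 : ℂ) - I * a * u)
  have h3 := abs_nonneg (a * u)
  have h4 := sq_abs (a * u)
  nlinarith

lemma lin_ne (a u : ℝ) : (1 : ℂ) - I * a * u ≠ 0 := by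
  intro h
  have := one_le_norm_lin a u
  rw [h, norm_zero] at this
  linarith

lemma norm_ex (a u : ℝ) : ‖cexp (I * a * u)‖ = 1 := by
  rw [Complex.norm_exp]
  simp

lemma norm_fa (a u : ℝ) : ‖fa a u‖ = ‖(1 : ℂ) - I * a * u‖ := by
  rw [fa, norm_mul, norm_ex, mul_one]

lemma one_le_norm_fa (a u : ℝ) : 1 ≤ ‖fa a u‖ := by
  rw [norm_fa]
  exact one_le_norm_lin a u

lemma fa_bound (a u : ℝ) : ‖fa a u - 1‖ ≤ 3 * (a * u) ^ 2 := by
  have h4 := sq_abs (a * u)
  rcases le_or_gt |a * u| 1 with h | h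
  · have e1 : I * (a : ℂ) * u = I * ((a * u : ℝ) : ℂ) := by push_cast; ring
    have h0 : ‖I * ((a * u : ℝ) : ℂ)‖ = |a * u| := by
      rw [norm_mul, Complex.norm_I, one_mul, Complex.norm_real, Real.norm_eq_abs]
    have h1 : ‖cexp (I * ((a * u : ℝ) : ℂ)) - 1 - I * ((a * u : ℝ) : ℂ)‖ ≤ |a * u| ^ 2 := by
      have := Complex.norm_exp_sub_one_sub_id_le (x := I * ((a * u : ℝ) : ℂ)) (by rw [h0]; exact h)
      rwa [h0] at this
    have h2 : ‖cexp (I * ((a * u : ℝ) : ℂ)) - 1‖ ≤ |a * u| := by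
      have := Real.norm_exp_I_mul_ofReal_sub_one_le (x := a * u)
      rwa [Real.norm_eq_abs] at this
    have h3 : fa a u - 1 = (cexp (I * ((a * u : ℝ) : ℂ)) - 1 - I * ((a * u : ℝ) : ℂ)) -
        I * ((a * u : ℝ) : ℂ) * (cexp (I * ((a * u : ℝ) : ℂ)) - 1) := by
      rw [fa, e1]
      ring
    rw [h3]
    calc ‖(cexp (I * ((a * u : ℝ) : ℂ)) - 1 - I * ((a * u : ℝ) : ℂ)) -
        I * ((a * u : ℝ) : ℂ) * (cexp (I * ((a * u : ℝ) : ℂ)) - 1)‖
        ≤ ‖cexp (I * ((a * u : ℝ) : ℂ)) - 1 - I * ((a * u : ℝ) : ℂ)‖ +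
          ‖I * ((a * u : ℝ) : ℂ) * (cexp (I * ((a * u : ℝ) : ℂ)) - 1)‖ := norm_sub_le _ _
      _ ≤ |a * u| ^ 2 + |a * u| * |a * u| := by
          rw [norm_mul (I * ((a * u : ℝ) : ℂ)), h0]
          gcongr
      _ ≤ 3 * (a * u) ^ 2 := by
          have := sq_nonneg (a * u)
          nlinarith
  · calc ‖fa a u - 1‖ ≤ ‖fa a u‖ + ‖(1 : ℂ)‖ := norm_sub_le _ _
      _ ≤ (1 + |a * u|) + 1 := by
          rw [norm_fa, norm_one]
          gcongr
          exact norm_lin_le a u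
      _ ≤ 3 * (a * u) ^ 2 := by nlinarith

lemma mult_fa {r : ℕ → ℝ} (hr : Summable (fun j => r j ^ 2)) (u : ℝ) :
    Multipliable (fun k => fa (r k) u) := by
  have h1 : Summable (fun k => ‖fa (r k) u - 1‖) := by
    refine Summable.of_nonneg_of_le (fun k => norm_nonneg _) (fun k => fa_bound (r k) u) ?_
    have h2 : (fun k => 3 * (r k * u) ^ 2) = fun k => (3 * u ^ 2) * r k ^ 2 := by
      funext k
      ring
    rw [h2]
    exact hr.mul_left _
  have h2 := multipliable_one_add_of_summable h1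
  simpa using h2

lemma tendsto_fa {r : ℕ → ℝ} (hr : Summable (fun j => r j ^ 2)) (u : ℝ) :
    Tendsto (fun N => ∏ k ∈ Finset.range N, fa (r k) u) atTop (𝓝 (∏' k, fa (r k) u)) :=
  (mult_fa hr u).hasProd.tendsto_prod_nat

lemma one_le_norm_prod (r : ℕ → ℝ) (u : ℝ) (s : Finset ℕ) : 1 ≤ ‖∏ k ∈ s, fa (r k) u‖ := by
  classical
  induction s using Finset.induction_on with
  | empty => simp
  | insert a s ha ih =>
    rw [Finset.prod_insert ha, norm_mul]
    exact one_le_mul_of_one_le_of_one_le (one_le_norm_fa _ _) ih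

lemma norm_prod_le {r : ℕ → ℝ} (hr : Summable (fun j => r j ^ 2)) (u : ℝ) (N : ℕ) :
    ‖∏ k ∈ Finset.range N, fa (r k) u‖ ≤ ‖∏' k, fa (r k) u‖ := by
  have h1 := (tendsto_fa hr u).norm
  have hm : Monotone fun N => ‖∏ k ∈ Finset.range N, fa (r k) u‖ := by
    refine monotone_nat_of_le_succ fun n => ?_
    rw [Finset.prod_range_succ, norm_mul]
    exact le_mul_of_one_le_right (norm_nonneg _) (one_le_norm_fa _ _)
  exact hm.ge_of_tendsto h1 N

lemma Sf_eq (lam β : ℝ) (r : ℕ → ℝ) (u : ℝ) :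
    Sf lam β r u = cexp (lam * u ^ 2 + I * β * u) * ∏' k, fa (r k) u := rfl

lemma norm_pre (lam β u : ℝ) : ‖cexp ((lam : ℂ) * (u : ℂ) ^ 2 + I * β * u)‖ = Real.exp (lam * u ^ 2) := by
  rw [Complex.norm_exp]
  congr 1
  have : ((lam : ℂ) * (u : ℂ) ^ 2 + I * β * u) = ((lam * u ^ 2 : ℝ) : ℂ) + ((β * u : ℝ) : ℂ) * I := by
    push_cast
    ring
  rw [this, Complex.add_re, Complex.ofReal_re]
  simp

lemma one_le_norm_Sf {lam β : ℝ} {r : ℕ → ℝ} (hl : 0 ≤ lam) (hr : Summable (fun j => r j ^ 2)) (u : ℝ) :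
    1 ≤ ‖Sf lam β r u‖ := by
  rw [Sf_eq, norm_mul, norm_pre]
  have h1 : 1 ≤ Real.exp (lam * u ^ 2) := Real.one_le_exp (by positivity)
  have h2 : 1 ≤ ‖∏' k, fa (r k) u‖ := by
    have := norm_prod_le hr u 0
    simpa using this
  nlinarith

lemma meas_Sf {lam β : ℝ} {r : ℕ → ℝ} (hr : Summable (fun j => r j ^ 2)) :
    Measurable (Sf lam β r) := by
  have h1 : Measurable (fun u : ℝ => ∏' k, fa (r k) u) := by
    refine measurable_of_tendsto_metrizable (f := fun N (u : ℝ) => ∏ k ∈ Finset.range N, fa (r k) u)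
      (fun N => ?_) (tendsto_pi_nhds.2 fun u => tendsto_fa hr u)
    refine Finset.measurable_prod _ fun k _ => ?_
    unfold fa
    fun_prop
  have h2 : Measurable (fun u : ℝ => cexp ((lam : ℂ) * (u : ℂ) ^ 2 + I * β * u)) := by fun_prop
  exact h2.mul h1

/-- The class. -/
def Cl (m : ℕ) (h : ℝ → ℂ) : Prop := Wt h ∧ App m (Lt h)

lemma Lt_add {h g : ℝ → ℂ} (hh : Wt h) (hg : Wt g) (z : ℂ) : Lt (fun u => h u + g u) z = Lt h z + Lt g z := by
  unfold Lt
  rw [← integral_add (hh.integrand z) (hg.integrand z)]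
  refine integral_congr_ae (Eventually.of_forall fun u => ?_)
  simp only
  ring

lemma Lt_sub {h g : ℝ → ℂ} (hh : Wt h) (hg : Wt g) (z : ℂ) : Lt (fun u => h u - g u) z = Lt h z - Lt g z := by
  unfold Lt
  rw [← integral_sub (hh.integrand z) (hg.integrand z)]
  refine integral_congr_ae (Eventually.of_forall fun u => ?_)
  simp only
  ring

lemma Lt_const_mul {h : ℝ → ℂ} (c : ℂ) (z : ℂ) : Lt (fun u => c * h u) z = c * Lt h z := by
  unfold Lt
  rw [← integral_const_mul]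
  refine integral_congr_ae (Eventually.of_forall fun u => ?_)
  simp only
  ring

lemma wt_sub {h g : ℝ → ℂ} (hh : Wt h) (hg : Wt g) : Wt (fun u => h u - g u) := by
  intro M
  have := (hh M).sub (hg M)
  refine this.congr (Eventually.of_forall fun u => ?_)
  simp only [Pi.sub_apply]
  ring

lemma wt_const_mul {h : ℝ → ℂ} (hh : Wt h) (c : ℂ) : Wt (fun u => c * h u) := by
  intro M
  have := (hh M).const_mul c
  refine this.congr (Eventually.of_forall fun u => ?_)
  simp only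
  ring

lemma cl_lin {m : ℕ} {h : ℝ → ℂ} (hh : Cl m h) (b : ℝ) : Cl m (fun u => h u * (1 - I * b * u)) := by
  have e : (fun u : ℝ => h u * (1 - I * b * u)) = fun u : ℝ => h u - (b : ℂ) * (h u * (I * u)) := by
    funext u
    ring
  rw [e]
  have hw := wt_const_mul hh.1.mulId (b : ℂ)
  refine ⟨wt_sub hh.1 hw, ?_⟩
  have e2 : Lt (fun u : ℝ => h u - (b : ℂ) * (h u * (I * u))) =
      fun z => Lt h z - (b : ℂ) * deriv (Lt h) z := by
    funext z
    rw [Lt_sub hh.1 hw, Lt_const_mul, deriv_Lt hh.1]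
  rw [e2]
  exact Pool.Agent.N768.GN.a3 m (Lt h) b (diff_Lt hh.1) hh.2

lemma cl_exp {m : ℕ} {h : ℝ → ℂ} (hh : Cl m h) (b : ℝ) : Cl m (fun u => h u * cexp (I * b * u)) := by
  refine ⟨hh.1.mul_of_bound (by fun_prop) (C := 1) (A := 0) (fun u => ?_), ?_⟩
  · rw [norm_ex]
    simp
  · have e : Lt (fun u : ℝ => h u * cexp (I * b * u)) = fun z => Lt h (z + b) := by
      funext z
      unfold Lt
      refine integral_congr_ae (Eventually.of_forall fun u => ?_)
      simp only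
      rw [mul_assoc, ← Complex.exp_add]
      congr 2
      ring
    rw [e]
    exact Pool.Agent.N768.GN.a2 m (Lt h) b hh.2

lemma cl_fa {m : ℕ} {h : ℝ → ℂ} (hh : Cl m h) (a : ℝ) : Cl m (fun u => h u * fa a u) := by
  have := cl_exp (cl_lin hh a) a
  have e : (fun u : ℝ => h u * fa a u) = fun u : ℝ => h u * (1 - I * a * u) * cexp (I * a * u) := by
    funext u
    rw [fa]
    ring
  rw [e]
  exact this

lemma cl_prod {m : ℕ} {h : ℝ → ℂ} (hh : Cl m h) (r : ℕ → ℝ) (s : Finset ℕ) :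
    Cl m (fun u => h u * ∏ k ∈ s, fa (r k) u) := by
  classical
  induction s using Finset.induction_on with
  | empty => simpa using hh
  | insert a s ha ih =>
    have := cl_fa ih (r a)
    have e : (fun u : ℝ => h u * ∏ k ∈ insert a s, fa (r k) u) =
        fun u : ℝ => h u * (∏ k ∈ s, fa (r k) u) * fa (r a) u := by
      funext u
      rw [Finset.prod_insert ha]
      ring
    rw [e]
    exact this

lemma cl_quad {m : ℕ} {h : ℝ → ℂ} (hh : Cl m h) {c : ℝ} (hc : 0 ≤ c) :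
    Cl m (fun u => h u * ((1 + c * u ^ 2 : ℝ) : ℂ)) := by
  have := cl_lin (cl_lin hh (Real.sqrt c)) (-Real.sqrt c)
  have e : (fun u : ℝ => h u * ((1 + c * u ^ 2 : ℝ) : ℂ)) =
      fun u : ℝ => h u * (1 - I * (Real.sqrt c : ℝ) * u) * (1 - I * ((-Real.sqrt c : ℝ) : ℂ) * u) := by
    funext u
    have h1 : ((c : ℝ) : ℂ) = ((Real.sqrt c : ℝ) : ℂ) ^ 2 := by
      rw [← Complex.ofReal_pow, Real.sq_sqrt hc]
    push_cast
    rw [h1]
    linear_combination ((h u) * ((Real.sqrt c : ℝ) : ℂ) ^ 2 * (u : ℂ) ^ 2) * I_sq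
  rw [e]
  exact this

lemma cl_pow {m : ℕ} {h : ℝ → ℂ} (hh : Cl m h) {c : ℝ} (hc : 0 ≤ c) (n : ℕ) :
    Cl m (fun u => h u * ((1 + c * u ^ 2 : ℝ) : ℂ) ^ n) := by
  induction n with
  | zero => simpa using hh
  | succ n ih =>
    have := cl_quad ih hc
    have e : (fun u : ℝ => h u * ((1 + c * u ^ 2 : ℝ) : ℂ) ^ (n + 1)) =
        fun u : ℝ => h u * ((1 + c * u ^ 2 : ℝ) : ℂ) ^ n * ((1 + c * u ^ 2 : ℝ) : ℂ) := by
      funext u
      rw [pow_succ]
      ring
    rw [e]
    exact this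

/-- The approximations. -/
noncomputable def T (lam β : ℝ) (r : ℕ → ℝ) (j0 N : ℕ) (u : ℝ) : ℂ :=
  cexp (I * β * u) * cexp (I * r j0 * u) * ((1 + lam / N * u ^ 2 : ℝ) : ℂ) ^ N *
    ∏ k ∈ (Finset.range N).erase j0, fa (r k) u

lemma cl_T {m : ℕ} {h : ℝ → ℂ} (hh : Cl m h) {lam : ℝ} (hl : 0 ≤ lam) (β : ℝ) (r : ℕ → ℝ) (j0 N : ℕ) :
    Cl m (fun u => h u * T lam β r j0 N u) := by
  have := cl_prod (cl_pow (cl_exp (cl_exp hh β) (r j0)) (c := lam / N) (by positivity) N) r
    ((Finset.range N).erase j0)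
  have e : (fun u : ℝ => h u * T lam β r j0 N u) =
      fun u : ℝ => h u * cexp (I * β * u) * cexp (I * r j0 * u) * ((1 + lam / N * u ^ 2 : ℝ) : ℂ) ^ N *
        ∏ k ∈ (Finset.range N).erase j0, fa (r k) u := by
    funext u
    rw [T]
    ring
  rw [e]
  exact this

lemma T_eq (lam β : ℝ) (r : ℕ → ℝ) {j0 N : ℕ} (hN : j0 < N) (u : ℝ) :
    T lam β r j0 N u * (1 - I * r j0 * u) =
      cexp (I * β * u) * ((1 + lam / N * u ^ 2 : ℝ) : ℂ) ^ N * ∏ k ∈ Finset.range N, fa (r k) u := by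
  rw [← Finset.mul_prod_erase (Finset.range N) (fun k => fa (r k) u) (Finset.mem_range.2 hN), T]
  simp only [fa]
  ring

lemma norm_T_le {lam β : ℝ} {r : ℕ → ℝ} (hl : 0 ≤ lam) (hr : Summable (fun j => r j ^ 2))
    {j0 N : ℕ} (hN : j0 < N) (u : ℝ) : ‖T lam β r j0 N u‖ ≤ ‖Sf lam β r u‖ := by
  have h1 : ‖T lam β r j0 N u‖ ≤ ‖T lam β r j0 N u * (1 - I * r j0 * u)‖ := by
    rw [norm_mul]
    exact le_mul_of_one_le_right (norm_nonneg _) (one_le_norm_lin _ _)
  refine h1.trans ?_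
  rw [T_eq lam β r hN, Sf_eq, norm_mul, norm_mul, norm_mul, norm_ex, one_mul, norm_pre]
  gcongr
  · rw [norm_pow, Complex.norm_real, Real.norm_eq_abs, abs_of_nonneg (by positivity)]
    have hN0 : (N : ℝ) ≠ 0 := by
      have : 0 < N := by omega
      positivity
    calc (1 + lam / N * u ^ 2) ^ N ≤ (Real.exp (lam / N * u ^ 2)) ^ N := by
          gcongr
          linarith [Real.add_one_le_exp (lam / N * u ^ 2)]
      _ = Real.exp (lam * u ^ 2) := by
          rw [← Real.exp_nat_mul]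
          congr 1
          field_simp
  · exact norm_prod_le hr u N

lemma tendsto_T {lam β : ℝ} {r : ℕ → ℝ} (hr : Summable (fun j => r j ^ 2)) (j0 : ℕ) (u : ℝ) :
    Tendsto (fun N => T lam β r j0 N u) atTop (𝓝 (Sf lam β r u / (1 - I * r j0 * u))) := by
  have h1 : Tendsto (fun N : ℕ => ((1 + lam / N * u ^ 2 : ℝ) : ℂ) ^ N) atTop
      (𝓝 (cexp ((lam * u ^ 2 : ℝ) : ℂ))) := by
    have h2 := Real.tendsto_one_add_div_pow_exp (lam * u ^ 2)
    have h3 := (Complex.continuous_ofReal.tendsto _).comp h2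
    rw [Complex.ofReal_exp] at h3
    refine h3.congr fun N => ?_
    simp only [Function.comp]
    push_cast
    congr 2
    ring
  have h2 : Tendsto (fun N : ℕ => (cexp (I * β * u) * ((1 + lam / N * u ^ 2 : ℝ) : ℂ) ^ N *
      ∏ k ∈ Finset.range N, fa (r k) u) / (1 - I * r j0 * u)) atTop
      (𝓝 ((cexp (I * β * u) * cexp ((lam * u ^ 2 : ℝ) : ℂ) * ∏' k, fa (r k) u) / (1 - I * r j0 * u))) :=
    ((h1.const_mul _).mul (tendsto_fa hr u)).div_const _
  have h3 : (cexp (I * β * u) * cexp ((lam * u ^ 2 : ℝ) : ℂ) * ∏' k, fa (r k) u) = Sf lam β r u := by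
    rw [Sf_eq, ← Complex.exp_add]
    congr 2
    push_cast
    ring
  rw [h3] at h2
  refine h2.congr' ?_
  filter_upwards [eventually_gt_atTop j0] with N hN
  rw [← T_eq lam β r hN, mul_div_assoc, div_self (lin_ne _ _), mul_one]

end Q

open Q in
/-- Task Q. -/
theorem q : S_Q := by
  intro k hk lam β r hl hr
  refine ⟨one_le_norm_Sf hl hr, meas_Sf hr, fun j0 m hA => ?_⟩
  have hS := meas_Sf (lam := lam) (β := β) hr
  have hS1 := one_le_norm_Sf (β := β) hl hr
  have hS0 : ∀ u, Sf lam β r u ≠ 0 := by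
    intro u h
    have := hS1 u
    rw [h, norm_zero] at this
    linarith
  -- the weight `H = k / S`
  have hH : Wt (fun u => k u / Sf lam β r u) := by
    have := hk.mul_of_bound (g := fun u => (Sf lam β r u)⁻¹) hS.inv.aestronglyMeasurable
      (C := 1) (A := 0) (fun u => by
        rw [norm_inv]
        simp only [zero_mul, Real.exp_zero, mul_one]
        exact inv_le_one_of_one_le₀ (hS1 u))
    simpa only [div_eq_mul_inv] using this
  have hcl : Cl m (fun u => k u / Sf lam β r u) := ⟨hH, hA⟩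
  have hLm : Measurable (fun u : ℝ => (1 : ℂ) - I * r j0 * u) := by fun_prop
  have hG : Wt (fun u => k u / (1 - I * r j0 * u)) := by
    have := hk.mul_of_bound (g := fun u : ℝ => ((1 : ℂ) - I * r j0 * u)⁻¹) hLm.inv.aestronglyMeasurable
      (C := 1) (A := 0) (fun u => by
        rw [norm_inv]
        simp only [zero_mul, Real.exp_zero, mul_one]
        exact inv_le_one_of_one_le₀ (one_le_norm_lin _ _))
    simpa only [div_eq_mul_inv] using this
  refine Pool.Agent.N768.GN.a1 m _ fun R ε hε => ?_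
  -- dominated convergence
  set F : ℕ → ℝ → ℝ := fun N u =>
    ‖k u / Sf lam β r u * T lam β r j0 N u - k u / (1 - I * r j0 * u)‖ * Real.exp (R * |u|) with hF
  have hwt : ∀ N, Wt (fun u => k u / Sf lam β r u * T lam β r j0 N u - k u / (1 - I * r j0 * u)) :=
    fun N => wt_sub (cl_T hcl hl β r j0 N).1 hG
  have hlim : Tendsto (fun N => ∫ u : ℝ, F N u) atTop (𝓝 (∫ u : ℝ, (0 : ℝ))) := by
    refine tendsto_integral_filter_of_dominated_convergence
      (fun u => 2 * (‖k u‖ * Real.exp (R * |u|))) ?_ ?_ ((hk.norm_int R).const_mul 2) ?_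
    · exact Eventually.of_forall fun N => ((hwt N).norm_int R).1
    · filter_upwards [eventually_gt_atTop j0] with N hN
      refine Eventually.of_forall fun u => ?_
      have h1 : ‖k u / Sf lam β r u * T lam β r j0 N u‖ ≤ ‖k u‖ := by
        rw [norm_mul, norm_div, div_mul_eq_mul_div, mul_div_assoc]
        refine mul_le_of_le_one_right (norm_nonneg _) ?_
        exact div_le_one_of_le₀ (norm_T_le hl hr hN u) (norm_nonneg _)
      have h2 : ‖k u / (1 - I * r j0 * u)‖ ≤ ‖k u‖ := by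
        rw [norm_div]
        exact div_le_self (norm_nonneg _) (one_le_norm_lin _ _)
      rw [hF, Real.norm_eq_abs, abs_of_nonneg (by positivity)]
      calc ‖k u / Sf lam β r u * T lam β r j0 N u - k u / (1 - I * r j0 * u)‖ * Real.exp (R * |u|)
          ≤ (‖k u‖ + ‖k u‖) * Real.exp (R * |u|) := by
            gcongr
            exact (norm_sub_le _ _).trans (add_le_add h1 h2)
        _ = 2 * (‖k u‖ * Real.exp (R * |u|)) := by ring
    · refine Eventually.of_forall fun u => ?_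
      have h1 : Tendsto (fun N => k u / Sf lam β r u * T lam β r j0 N u - k u / (1 - I * r j0 * u)) atTop
          (𝓝 (k u / Sf lam β r u * (Sf lam β r u / (1 - I * r j0 * u)) - k u / (1 - I * r j0 * u))) :=
        ((tendsto_T hr j0 u).const_mul _).sub_const _
      have h2 : k u / Sf lam β r u * (Sf lam β r u / (1 - I * r j0 * u)) - k u / (1 - I * r j0 * u) = 0 := by
        have := hS0 u
        have := lin_ne (r j0) u
        field_simp
        simp
      rw [h2] at h1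
      have h3 := (h1.norm).mul_const (Real.exp (R * |u|))
      simpa using h3
  rw [integral_zero] at hlim
  obtain ⟨N, hN⟩ := (hlim.eventually (gt_mem_nhds hε)).exists
  refine ⟨_, (cl_T hcl hl β r j0 N).2, fun z hz => ?_⟩
  rw [norm_sub_rev, ← Lt_sub (cl_T hcl hl β r j0 N).1 hG]
  refine (norm_Lt_le (hwt N) z).trans (le_trans ?_ hN.le)
  refine integral_mono ((hwt N).norm_int _) ((hwt N).norm_int _) fun u => ?_
  exact mul_le_mul_of_nonneg_left
    (Real.exp_le_exp.2 (mul_le_mul_of_nonneg_right hz (abs_nonneg u))) (norm_nonneg _)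

end Pool.Agent.N722.GN
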